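import Pool.Agent.W_MP_3ca6e9_h18.Final

/-!
# MP_3ca6e9_an, Q1: a convex uniform Eberlein compact set without convex weakly compact copies
-/

namespace Pool.Agent.Results.MP_3ca6e9_an.NoConvexCopy

open Pool.Agent.W_MP_3ca6e9_h18 Pool.Agent.W_MP_3ca6e9_an

universe u

theorem result : ∃ (I : Type) (K : Set (I → ℝ)), Convex ℝ K ∧ IsCompact K ∧
    (∃ (H : Type) (_ : NormedAddCommGroup H) (_ : InnerProductSpace ℝ H) (_ : CompleteSpace H)
      (S : Set (WeakSpace ℝ H)), IsCompact S ∧ Nonempty (K ≃ₜ S)) ∧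
    ∀ (Y : Type u) [NormedAddCommGroup Y] [NormedSpace ℝ Y] (C : Set (WeakSpace ℝ Y)),
      Convex ℝ C → IsEmpty (K ≃ₜ C) := by
  refine ⟨II KIdx, KK KIdx, KK_convex, KK_isCompact, KK_hilbert, ?_⟩
  intro Y _ _ C hC
  exact ⟨fun h => no_homeo hC h⟩

end Pool.Agent.Results.MP_3ca6e9_an.NoConvexCopy
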