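import Pool.Agent.W_MP_3ca6e9_an.Dual
import Pool.Agent.W_MP_3ca6e9_an.Modif

/-!
# MP_3ca6e9_an, Q1: a dual ball homeomorphic, but not affinely, to a convex weakly compact set

* Modifying a solid convex set `L ⊆ ℝ^Γ` by Orlicz functions gives a convex set homeomorphic to `L`.
* In particular every Musielak-Orlicz ball is homeomorphic to the unit ball of a Hilbert space with
  its weak topology.
* For a suitable family of Orlicz functions indexed by `ℕ^ℕ` this ball is the dual ball of a Banach
  space `X`, and has no injective continuous affine map into a normed space with its weak topology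
  (so that `X` is not weakly compactly generated).
-/

namespace Pool.Agent.Results.MP_3ca6e9_an.NonWCGDualBall

open Pool.Agent.W_MP_3ca6e9_an

theorem result :
    (∀ (Γ : Type) (M : Γ → ℝ → ℝ) (L : Set (Γ → ℝ)), (∀ γ, IsOrlicz (M γ)) → IsSolidSet L →
      Convex ℝ L → Convex ℝ (modification M L) ∧ Nonempty (modification M L ≃ₜ L)) ∧
    (∀ (Γ : Type) (M : Γ → ℝ → ℝ), (∀ γ, IsOrlicz (M γ)) →
      Convex ℝ (moBall M) ∧ IsCompact (moBall M) ∧ IsHilbertBall (moBall M)) ∧
    ∃ (X : Type) (_ : NormedAddCommGroup X) (_ : NormedSpace ℝ X) (_ : CompleteSpace X),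
      IsHilbertBall (dualBall X) ∧
      ∀ (Y : Type*) [NormedAddCommGroup Y] [NormedSpace ℝ Y],
        ¬ ∃ g : WeakDual ℝ X → WeakSpace ℝ Y, IsAffineEmbedding g := by
  refine ⟨fun Γ M L hM hL hc => ⟨convex_modification hM hL hc, nonempty_modification_homeo hM hL⟩,
    fun Γ M hM => ⟨convex_moBall hM, isCompact_moBall hM, isHilbertBall_moBall hM⟩, ?_⟩
  refine ⟨XX (bcf (M := MM)), inferInstance, inferInstance, XX_complete _, dual_homeo _, ?_⟩
  rintro Y _ _ ⟨g, hg, hinj, haff⟩
  exact dual_no_affine _ Y g hg hinj haff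

end Pool.Agent.Results.MP_3ca6e9_an.NonWCGDualBall
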